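import Pool.Agent.Helper31.Toric.Main

/-!
# Decomposed complements of toric pairs
-/

open Finset Filter Topology
open scoped ENNReal

namespace Pool.Agent.Helper31.Toric

/-- A non-empty subset of a DCC set has a least element. -/
theorem DCC.exists_min {Γ : Set ℝ} (h : DCC Γ) (P : ℝ → Prop) (hP : ∃ x ∈ Γ, P x) :
    ∃ x ∈ Γ, P x ∧ ∀ y ∈ Γ, P y → x ≤ y := by
  by_contra hcon
  push Not at hcon
  obtain ⟨x0, hx0, hPx0⟩ := hP
  let S : Type := {x : ℝ // x ∈ Γ ∧ P x}
  have hnext : ∀ s : S, ∃ t : S, t.1 < s.1 := fun s => by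
    obtain ⟨y, hy, hPy, hlt⟩ := hcon s.1 s.2.1 s.2.2
    exact ⟨⟨y, hy, hPy⟩, hlt⟩
  choose nxt hnxt using hnext
  let f : ℕ → S := fun n => Nat.rec ⟨x0, hx0, hPx0⟩ (fun _ s => nxt s) n
  apply h
  exact ⟨fun n => (f n).1, strictAnti_nat_of_succ_lt fun n => hnxt (f n), fun n => (f n).2.1⟩

/-- The rounding of `b` upwards, to the supremum of the part of `Γ` in the cell of `b` of the
partition of the line into intervals of length `1 / N`. -/
noncomputable def rnd (Γ : Set ℝ) (N : ℕ) (b : ℝ) : ℝ :=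
  sSup {x | x ∈ Γ ∧ ⌈x * N⌉ = ⌈b * N⌉}

theorem cell_le {N : ℕ} (hN : 0 < N) {x b : ℝ} (h : ⌈x * N⌉ = ⌈b * N⌉) : x ≤ b + 1 / N := by
  have hN' : (0 : ℝ) < N := by exact_mod_cast hN
  have h1 := Int.le_ceil (x * N)
  have h2 := Int.ceil_lt_add_one (b * N)
  rw [h] at h1
  have h3 : x * N < (b + 1 / N) * N := by
    rw [add_mul, one_div, inv_mul_cancel₀ hN'.ne']
    linarith
  exact (lt_of_mul_lt_mul_right h3 hN'.le).le

theorem le_rnd {Γ : Set ℝ} {N : ℕ} (hN : 0 < N) {b : ℝ} (hb : b ∈ Γ) : b ≤ rnd Γ N b :=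
  le_csSup ⟨b + 1 / N, fun _ hx => cell_le hN hx.2⟩ ⟨hb, rfl⟩

theorem rnd_le {Γ : Set ℝ} {N : ℕ} {b c : ℝ} (hb : b ∈ Γ)
    (h : ∀ x ∈ Γ, ⌈x * N⌉ = ⌈b * N⌉ → x ≤ c) : rnd Γ N b ≤ c :=
  csSup_le ⟨b, hb, rfl⟩ fun x hx => h x hx.1 hx.2

theorem rnd_finite (Γ : Set ℝ) (N : ℕ) :
    Set.Finite {y | ∃ b ∈ Γ, 0 ≤ b ∧ b ≤ 1 ∧ y = rnd Γ N b} := by
  have h1 : {y | ∃ b ∈ Γ, 0 ≤ b ∧ b ≤ 1 ∧ y = rnd Γ N b} ⊆
      (fun c : ℤ => sSup {x | x ∈ Γ ∧ ⌈x * N⌉ = c}) '' (Set.Icc (0 : ℤ) N) := by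
    rintro y ⟨b, _, hb0, hb1, rfl⟩
    refine ⟨⌈b * N⌉, ⟨?_, ?_⟩, rfl⟩
    · exact Int.ceil_nonneg (mul_nonneg hb0 (Nat.cast_nonneg _))
    · rw [Int.ceil_le]
      push_cast
      nlinarith [Nat.cast_nonneg (α := ℝ) N]
  exact ((Set.finite_Icc (0 : ℤ) N).image _).subset h1

/-- The core of the argument. -/
theorem core_decomp {d k : ℕ} {E Γ : Set ℝ} (hE : DCC E) (hΓ : DCC Γ)
    (ε : ℕ → ℝ) (β : ℕ → Fin k → ℝ) (V : ℕ → Fin k → Fin d → ℤ) (l : ℕ → Fin k → ℝ)
    (y : ℕ → Fin d → ℤ) (N : ℕ → ℕ) (hN : StrictMono N)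
    (hε : ∀ n, ε n ∈ E) (hβ : ∀ n i, β n i ∈ Γ) (hβ1 : ∀ n i, β n i ≤ 1)
    (hV : ∀ n, LinearIndependent ℝ (fun i j => (V n i j : ℝ) : Fin k → Fin d → ℝ))
    (hl : ∀ n i, 0 < l n i) (hy : ∀ n, y n ≠ 0)
    (hly : ∀ n j, (y n j : ℝ) = ∑ i, l n i * (V n i j : ℝ))
    (hlt : ∀ n, ∑ i, l n i * (1 - rnd Γ (N n) (β n i)) < ε n)
    (hge : ∀ j, ∀ (μ : Fin k → ℝ) (z : Fin d → ℤ), (∀ i, 0 ≤ μ i) → z ≠ 0 →
      (∀ j', (z j' : ℝ) = ∑ i, μ i * (V j i j' : ℝ)) →
      ε j ≤ ∑ i, μ i * (1 - β j i)) : False := by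
  classical
  -- `k` is positive
  have hk : Nonempty (Fin k) := by
    by_contra hk
    rw [not_nonempty_iff] at hk
    apply hy 0
    funext j
    have := hly 0 j
    simpa using this
  -- monotone subsequence
  obtain ⟨g, hg, hmono⟩ := mono_subseq_finset (ι := Unit ⊕ Fin k) Finset.univ
    (Sum.elim (fun _ => ε) (fun i n => β n i))
    (Sum.elim (fun _ => E) (fun _ => Γ))
    (by
      rintro (i | i)
      · exact hE
      · exact hΓ)
    (by
      rintro (i | i) n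
      · exact hε n
      · exact hβ n i)
  have mε : Monotone (ε ∘ g) := hmono (Sum.inl ()) (Finset.mem_univ _)
  have mβ : ∀ i, Monotone ((fun n => β n i) ∘ g) := fun i =>
    hmono (Sum.inr i) (Finset.mem_univ _)
  -- the limits of the coefficients
  have hbdd : ∀ i, BddAbove (Set.range ((fun n => β n i) ∘ g)) := fun i =>
    ⟨1, by rintro _ ⟨n, rfl⟩; exact hβ1 _ i⟩
  let b : Fin k → ℝ := fun i => ⨆ n, ((fun n => β n i) ∘ g) n
  have hlim : ∀ i, Tendsto ((fun n => β n i) ∘ g) atTop (𝓝 (b i)) := fun i =>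
    tendsto_atTop_ciSup (mβ i) (hbdd i)
  have hble : ∀ i n, β (g n) i ≤ b i := fun i n => le_ciSup (hbdd i) n
  -- gaps above the limits
  have hgap : ∀ i, ∃ η : ℝ, 0 < η ∧ ∀ x ∈ Γ, x < b i + η → x ≤ b i := by
    intro i
    by_cases hex : ∃ x ∈ Γ, b i < x
    · obtain ⟨x, _, hx2, hx3⟩ := hΓ.exists_min (fun x => b i < x) hex
      refine ⟨x - b i, by linarith, fun z hz hlt => ?_⟩
      by_contra hcon
      push Not at hcon
      have := hx3 z hz hcon
      linarith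
    · push Not at hex
      exact ⟨1, one_pos, fun x hx _ => hex x hx⟩
  choose η hη hηb using hgap
  obtain ⟨i1, hi1⟩ := Finite.exists_min η
  obtain ⟨M, hM⟩ := exists_nat_gt (1 / η i1)
  -- rounding does not go beyond the limit, for large `n`
  have hround : ∀ n, M + 1 ≤ n → ∀ i, rnd Γ (N (g n)) (β (g n) i) ≤ b i := by
    intro n hn i
    have h0 : M < N (g n) :=
      lt_of_lt_of_le (Nat.lt_of_succ_le hn) ((hg.le_apply).trans hN.le_apply)
    have hNpos : 0 < N (g n) := by omega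
    refine rnd_le (hβ _ i) fun x hx hcell => hηb i x hx ?_
    have h1 := cell_le hNpos hcell
    have h2 := hble i n
    have h3 : 1 / (N (g n) : ℝ) < η i := by
      have h4 : 1 / η i1 < (N (g n) : ℝ) := hM.trans (by exact_mod_cast h0)
      have h5 : 0 < η i1 := hη i1
      rw [div_lt_iff₀ h5] at h4
      have h6 : (0 : ℝ) < N (g n) := by exact_mod_cast hNpos
      rw [div_lt_iff₀ h6]
      have h7 : (N (g n) : ℝ) * η i1 ≤ η i * N (g n) := by
        rw [mul_comm]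
        exact mul_le_mul_of_nonneg_right (hi1 i) h6.le
      linarith
    linarith
  -- the limit lemma for a tail
  obtain ⟨n', hn'⟩ := exists_limit (fun n => coefGroup (V (g (n + (M + 1))))) (fun n z => by
    rw [mem_coefGroup]
    refine ⟨fun j => ∑ i, z i * V (g (n + (M + 1))) i j, fun j => ?_⟩
    push_cast
    exact Finset.sum_congr rfl fun i _ => rfl)
  obtain ⟨n, hn⟩ : ∃ n, n = n' + (M + 1) := ⟨_, rfl⟩
  rw [← hn] at hn'
  have hnM : M + 1 ≤ n := by omega
  -- the value in the limit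
  have hval : ε (g n) ≤ ∑ i, l (g n) i * (1 - b i) := by
    refine le_of_forall_pos_le_add fun ζ hζ => ?_
    -- choose `δ`
    set C : ℝ := ∑ i, (|1 - b i| + l (g n) i + 1) with hC
    have hC0 : 0 ≤ C := Finset.sum_nonneg fun i _ => by
      have := abs_nonneg (1 - b i)
      have := hl (g n) i
      linarith
    obtain ⟨i0, hi0⟩ := Finite.exists_min (l (g n))
    set δ : ℝ := min (min (l (g n) i0) 1) (ζ / (1 + C)) with hδ
    have hδ0 : 0 < δ := lt_min (lt_min (hl _ _) one_pos) (by positivity)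
    have hev : ∀ᶠ j in atTop, ∀ i, |β (g (j + (M + 1))) i - b i| < δ := by
      rw [Filter.eventually_all]
      intro i
      have h1 := (Metric.tendsto_nhds.mp (hlim i) δ hδ0)
      have h2 : Tendsto (fun j : ℕ => j + (M + 1)) atTop atTop := tendsto_add_atTop_nat (M + 1)
      filter_upwards [h2.eventually h1] with j hj
      rwa [Real.dist_eq] at hj
    obtain ⟨j, ⟨μ, hμH, hμδ⟩, hjn, hjb⟩ := ((hn' (WithLp.toLp 2 (l (g n))) (by
      rw [mem_coefGroup]
      exact ⟨y (g n), fun j => hly (g n) j⟩) δ hδ0).and_eventually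
        ((eventually_gt_atTop n').and hev)).exists
    have hμl : ∀ i, |μ i - l (g n) i| < δ := by
      intro i
      refine lt_of_le_of_lt ?_ hμδ
      have := PiLp.norm_apply_le (μ - WithLp.toLp 2 (l (g n))) i
      rwa [PiLp.sub_apply, Real.norm_eq_abs] at this
    have hμ0 : ∀ i, 0 < μ i := by
      intro i
      have h3 := hμl i
      rw [abs_lt] at h3
      have h4 : δ ≤ l (g n) i0 := (min_le_left _ _).trans (min_le_left _ _)
      have h5 := hi0 i
      linarith [h3.1]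
    rw [mem_coefGroup] at hμH
    obtain ⟨z, hz⟩ := hμH
    have hz0 : z ≠ 0 := by
      intro h0
      have h3 := Fintype.linearIndependent_iff.mp (hV (g (j + (M + 1)))) μ (by
        funext j'
        have := hz j'
        rw [h0] at this
        simp only [Pi.zero_apply, Int.cast_zero] at this
        rw [Finset.sum_apply]
        simp only [Pi.smul_apply, smul_eq_mul, Pi.zero_apply]
        exact this.symm)
      obtain ⟨i⟩ := hk
      exact (hμ0 i).ne' (h3 i)
    have h3 := hge (g (j + (M + 1))) μ z (fun i => (hμ0 i).le) hz0 hz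
    have h4 : ε (g n) ≤ ε (g (j + (M + 1))) := mε (by omega)
    have h5 : ∑ i, μ i * (1 - β (g (j + (M + 1))) i) ≤ ∑ i, l (g n) i * (1 - b i) + δ * C := by
      have h6 : ∑ i, μ i * (1 - β (g (j + (M + 1))) i) - ∑ i, l (g n) i * (1 - b i) ≤ δ * C := by
        rw [← Finset.sum_sub_distrib, hC, Finset.mul_sum]
        refine Finset.sum_le_sum fun i _ => ?_
        have e1 := hμl i
        have e2 := hjb i
        have e3 : δ ≤ 1 := (min_le_left _ _).trans (min_le_right _ _)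
        have e4 := hl (g n) i
        rw [abs_lt] at e1 e2
        have e5 : μ i * (1 - β (g (j + (M + 1))) i) - l (g n) i * (1 - b i) =
            (μ i - l (g n) i) * (1 - b i) + μ i * (b i - β (g (j + (M + 1))) i) := by ring
        rw [e5]
        have e6 : (μ i - l (g n) i) * (1 - b i) ≤ δ * |1 - b i| := by
          calc (μ i - l (g n) i) * (1 - b i) ≤ |(μ i - l (g n) i) * (1 - b i)| := le_abs_self _
            _ = |μ i - l (g n) i| * |1 - b i| := abs_mul _ _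
            _ ≤ δ * |1 - b i| := mul_le_mul_of_nonneg_right (hμl i).le (abs_nonneg _)
        have e7 : μ i * (b i - β (g (j + (M + 1))) i) ≤ (l (g n) i + 1) * δ :=
          mul_le_mul (by linarith [e1.2]) (by linarith [e2.1])
            (by linarith [hble i (j + (M + 1))]) (by linarith)
        nlinarith
      linarith
    have h7 : δ * C ≤ ζ := by
      have h9 : δ ≤ ζ / (1 + C) := min_le_right _ _
      rw [le_div_iff₀ (by positivity)] at h9
      nlinarith
    linarith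
  have h1 : ∑ i, l (g n) i * (1 - b i) ≤ ∑ i, l (g n) i * (1 - rnd Γ (N (g n)) (β (g n) i)) := by
    refine Finset.sum_le_sum fun i _ => mul_le_mul_of_nonneg_left ?_ (hl _ i).le
    linarith [hround n hnM i]
  have h2 := hlt (g n)
  linarith

/-- **Decomposed complements**: the coefficients can be raised to a finite set. -/
theorem exists_decomposed (d : ℕ) {E Γ : Set ℝ} (hE : DCC E) (hΓ : DCC Γ) :
    ∃ Γ₀ : Set ℝ, Γ₀.Finite ∧ ∀ (r : ℕ) (ε : ℝ) (v : Fin r → Fin d → ℤ) (b : Fin r → ℝ),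
      ε ∈ E → 0 ≤ ε → (∀ i, v i ≠ 0) → (∀ i, b i ∈ Γ ∧ 0 ≤ b i) → Complementary ε v b →
        ∃ b' : Fin r → ℝ, (∀ i, b i ≤ b' i ∧ b' i ∈ Γ₀) ∧ Complementary ε v b' := by
  classical
  by_contra hcon
  push Not at hcon
  have hdata := fun n : ℕ => hcon _ (rnd_finite Γ (n + 1))
  choose r ε v b hε hε0 hv hb hcomp hfail using hdata
  -- the coefficients are at most one
  have hb1 : ∀ n i, b n i ≤ 1 := by
    intro n i
    have h1 := (hcomp n).le_sum (k := 1) (fun _ => i) (fun _ => 1) (fun _ => zero_le_one)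
      (v n i) (hv n i) (fun j => by simp)
    have h2 := hε0 n
    simp only [Finset.univ_unique, Finset.sum_singleton, one_mul] at h1
    linarith
  have hnot : ∀ n, ¬ Complementary (ε n) (v n) (fun i => rnd Γ (n + 1) (b n i)) := by
    intro n
    refine hfail n _ fun i => ⟨le_rnd (Nat.succ_pos n) (hb n i).1, ?_⟩
    exact ⟨b n i, (hb n i).1, (hb n i).2, hb1 n i, rfl⟩
  have hviol := fun n => exists_violator (hε0 n) (v n) (hv n) _ (hnot n)
  choose k hk using hviol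
  have hkd : ∀ n, k n ≤ d := fun n => by
    obtain ⟨e, l, y, h3, -⟩ := hk n
    exact h3
  obtain ⟨K, hK⟩ : ∃ K : ℕ, ∃ᶠ n in atTop, k n = K := by
    by_contra hcon'
    push Not at hcon'
    have h3 : ∀ᶠ n in atTop, ∀ K ∈ Finset.range (d + 1), ¬ k n = K := by
      rw [Filter.eventually_all_finset]
      intro K _
      exact hcon' K
    obtain ⟨n, hn⟩ := h3.exists
    exact hn (k n) (Finset.mem_range.mpr (Nat.lt_succ_of_le (hkd n))) rfl
  obtain ⟨φ, hφ, hφK⟩ := Filter.extraction_of_frequently_atTop hK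
  have hk' : ∀ n, ∃ (e : Fin K → Fin (r (φ n))) (l : Fin K → ℝ) (y : Fin d → ℤ),
      LinearIndependent ℝ (fun i j => (v (φ n) (e i) j : ℝ) : Fin K → Fin d → ℝ) ∧
      (∀ i, 0 < l i) ∧ y ≠ 0 ∧ (∀ j, (y j : ℝ) = ∑ i, l i * (v (φ n) (e i) j : ℝ)) ∧
      ∑ i, l i * (1 - rnd Γ (φ n + 1) (b (φ n) (e i))) < ε (φ n) := by
    intro n
    obtain ⟨e, l, y, -, h3⟩ := hk (φ n)
    have h4 := hφK n
    generalize k (φ n) = K' at *
    subst h4
    exact ⟨e, l, y, h3⟩
  choose e l y hli hl hy hly hlt using hk'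
  exact core_decomp hE hΓ (fun n => ε (φ n)) (fun n i => b (φ n) (e n i))
    (fun n i => v (φ n) (e n i)) l y (fun n => φ n + 1)
    (fun a c hac => Nat.succ_lt_succ (hφ hac)) (fun n => hε _) (fun n i => (hb _ _).1)
    (fun n i => hb1 _ _) hli hl hy hly hlt
    (fun j μ z hμ hz0 hz => (hcomp (φ j)).le_sum (e j) μ hμ z hz0 hz)

end Pool.Agent.Helper31.Toric
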