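import Mathlib

/-!
# Toric complementary thresholds: the definitions

`v : Fin r → Fin d → ℤ` lists the primitive generators of the rays of the fan of a toric variety
`X`, projective over an affine toric variety `Z`; the support of the fan is the cone generated by
the `v i`. The torus invariant divisor `B = ∑ i, b i D i` is given by `b : Fin r → ℝ`.
-/

open scoped ENNReal

namespace Pool.Agent.Helper31.Toric

/-- The value of the real covector `u` on the lattice vector `x`. -/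
noncomputable def ev {d : ℕ} (u : Fin d → ℝ) (x : Fin d → ℤ) : ℝ := ∑ j, u j * (x j : ℝ)

/-- The lattice vector `x` lies in the convex cone spanned by the lattice vectors `v i`. -/
def InCone {r d : ℕ} (v : Fin r → Fin d → ℤ) (x : Fin d → ℤ) : Prop :=
  ∃ a : Fin r → ℝ, (∀ i, 0 ≤ a i) ∧ ∀ j, (x j : ℝ) = ∑ i, a i * (v i j : ℝ)

/-- `U` is a finite set of (real) monomials of the linear system of the divisor `-(K + B)`,
where `B = ∑ i, b i D i`, which gives an `(ε, ℝ)`-complement: each `u ∈ U` lies in the polyhedron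
of `-(K + B)`, and for each non-zero lattice vector `x` of the support of the fan the largest
value `⟨u, x⟩`, `u ∈ U`, which is the log discrepancy at the toric divisor of `x`, is at
least `ε`. -/
def IsComplement {r d : ℕ} (ε : ℝ) (v : Fin r → Fin d → ℤ) (b : Fin r → ℝ)
    (U : Finset (Fin d → ℝ)) : Prop :=
  (∀ u ∈ U, ∀ i, ev u (v i) ≤ 1 - b i) ∧
    ∀ x : Fin d → ℤ, x ≠ 0 → InCone v x → ∃ u ∈ U, ε ≤ ev u x

/-- The toric pair with rays `v i` and boundary coefficients `b i` is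
`(ε, ℝ)`-complementary. -/
def Complementary {r d : ℕ} (ε : ℝ) (v : Fin r → Fin d → ℤ) (b : Fin r → ℝ) : Prop :=
  ∃ U : Finset (Fin d → ℝ), IsComplement ε v b U

/-- The threshold of `M = ∑ i, m i D i` with respect to `B = ∑ i, b i D i`: the supremum, in
`[0, ∞]`, of the `s ≥ 0` for which `B + s M` is `(ε, ℝ)`-complementary. -/
noncomputable def threshold {r d : ℕ} (ε : ℝ) (v : Fin r → Fin d → ℤ) (b m : Fin r → ℝ) :
    ℝ≥0∞ :=
  ⨆ (s : ℝ) (_ : 0 ≤ s ∧ Complementary ε v (fun i => b i + s * m i)), ENNReal.ofReal s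

/-- The set of all thresholds in dimension `d`, with `ε ∈ E`, the coefficients of `B` in `Γ₁` and
those of `M` in `Γ₂`, over all `(ε, ℝ)`-complementary toric pairs. -/
def thresholds (d : ℕ) (E Γ₁ Γ₂ : Set ℝ) : Set ℝ≥0∞ :=
  {t | ∃ ε ∈ E, ∃ (r : ℕ) (v : Fin r → Fin d → ℤ) (b m : Fin r → ℝ), 0 ≤ ε ∧ (∀ i, v i ≠ 0) ∧
    (∀ i, b i ∈ Γ₁ ∧ 0 ≤ b i) ∧ (∀ i, m i ∈ Γ₂ ∧ 0 ≤ m i) ∧ Complementary ε v b ∧
    t = threshold ε v b m}

/-- The descending chain condition: no strictly decreasing infinite sequence. -/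
def DCC (Γ : Set ℝ) : Prop := ¬ ∃ f : ℕ → ℝ, StrictAnti f ∧ ∀ n, f n ∈ Γ

/-- The ascending chain condition: no strictly increasing infinite sequence. -/
def ACC (S : Set ℝ≥0∞) : Prop := ¬ ∃ f : ℕ → ℝ≥0∞, StrictMono f ∧ ∀ n, f n ∈ S

/-- Existence of decomposed complements: there is a finite set `Γ₀`, depending only on `d`, `E`
and `Γ`, such that for every `(ε, ℝ)`-complementary toric pair of dimension `d`, with `ε ∈ E` and
`B` with coefficients in `Γ`, there is `B' ≥ B` with coefficients in `Γ₀` which is again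
`(ε, ℝ)`-complementary. -/
def Decomposed (d : ℕ) (E Γ : Set ℝ) : Prop :=
  ∃ Γ₀ : Set ℝ, Γ₀.Finite ∧ ∀ (r : ℕ) (ε : ℝ) (v : Fin r → Fin d → ℤ) (b : Fin r → ℝ),
    ε ∈ E → 0 ≤ ε → (∀ i, v i ≠ 0) → (∀ i, b i ∈ Γ ∧ 0 ≤ b i) → Complementary ε v b →
      ∃ b' : Fin r → ℝ, (∀ i, b i ≤ b' i ∧ b' i ∈ Γ₀) ∧ Complementary ε v b'

end Pool.Agent.Helper31.Toric
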