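import Pool.Agent.Helper31.Toric.Finite
import Pool.Agent.Helper31.Toric.Statement

/-!
# Toric complements: violators and weak duality
-/

open Finset
open scoped ENNReal

namespace Pool.Agent.Helper31.Toric

/-- The point of the polyhedron may depend on the lattice vector. -/
theorem complementary_of_pointwise {r d : ℕ} {ε : ℝ} (hε : 0 ≤ ε) (v : Fin r → Fin d → ℤ)
    (hv : ∀ i, v i ≠ 0) (b : Fin r → ℝ)
    (h : ∀ x : Fin d → ℤ, x ≠ 0 → InCone v x →
      ∃ u : Fin d → ℝ, (∀ i, ev u (v i) ≤ 1 - b i) ∧ ε ≤ ev u x) : Complementary ε v b := by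
  classical
  have h0 : ∀ (u : Fin d → ℝ) (z : Fin d → ℤ), ev u z = ∑ j, (z j : ℝ) * u j := fun u z =>
    Finset.sum_congr rfl fun j _ => mul_comm (u j) _
  have hc : ∀ i, 0 ≤ 1 - b i := by
    intro i
    obtain ⟨u, hu1, hu2⟩ := h (v i) (hv i)
      ⟨fun i' => if i' = i then 1 else 0, fun i' => by
          dsimp only
          split_ifs <;> norm_num,
        fun j => by simp⟩
    exact hε.trans (hu2.trans (hu1 i))
  obtain ⟨U, hU1, hU2⟩ := exists_finite (fun i j => (v i j : ℝ)) (fun i => 1 - b i) hc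
  refine ⟨U, fun u hu i => by rw [h0]; exact hU1 u hu i, fun x hx hxc => ?_⟩
  obtain ⟨u, hu1, hu2⟩ := h x hx hxc
  obtain ⟨u', hu', hle⟩ := hU2 (fun j => (x j : ℝ)) hxc u fun i => by
    have := hu1 i
    rwa [h0] at this
  refine ⟨u', hu', ?_⟩
  rw [h0] at hu2 ⊢
  exact hu2.trans hle

/-- Weak duality. -/
theorem Complementary.le_sum {r d k : ℕ} {ε : ℝ} {v : Fin r → Fin d → ℤ} {b : Fin r → ℝ}
    (h : Complementary ε v b) (e : Fin k → Fin r) (l : Fin k → ℝ) (hl : ∀ i, 0 ≤ l i)
    (y : Fin d → ℤ) (hy : y ≠ 0) (hly : ∀ j, (y j : ℝ) = ∑ i, l i * (v (e i) j : ℝ)) :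
    ε ≤ ∑ i, l i * (1 - b (e i)) := by
  classical
  obtain ⟨U, hU1, hU2⟩ := h
  obtain ⟨u, huU, hu2⟩ := hU2 y hy
    ⟨fun i => ∑ i' ∈ univ.filter (fun i' => e i' = i), l i',
      fun i => Finset.sum_nonneg fun i' _ => hl i', fun j => by
        rw [hly j, ← Finset.sum_fiberwise univ e (fun i => l i * (v (e i) j : ℝ))]
        refine Finset.sum_congr rfl fun i _ => ?_
        rw [Finset.sum_mul]
        refine Finset.sum_congr rfl fun i' hi' => ?_
        rw [(Finset.mem_filter.mp hi').2]⟩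
  have hu1 := hU1 u huU
  have h1 : ev u y = ∑ i, l i * ev u (v (e i)) := by
    simp only [ev, Finset.mul_sum]
    rw [Finset.sum_comm]
    refine Finset.sum_congr rfl fun j _ => ?_
    rw [hly j, Finset.mul_sum]
    exact Finset.sum_congr rfl fun i _ => by ring
  rw [h1] at hu2
  exact hu2.trans (Finset.sum_le_sum fun i _ => mul_le_mul_of_nonneg_left (hu1 (e i)) (hl i))

/-- The complementary property is monotone in the boundary. -/
theorem Complementary.mono {r d : ℕ} {ε : ℝ} {v : Fin r → Fin d → ℤ} {b b' : Fin r → ℝ}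
    (h : Complementary ε v b) (hb : ∀ i, b' i ≤ b i) : Complementary ε v b' := by
  obtain ⟨U, hU1, hU2⟩ := h
  exact ⟨U, fun u hu i => by have := hU1 u hu i; have := hb i; linarith, hU2⟩

/-- If there is no complement, then a basic combination of the rays violates it. -/
theorem exists_violator {r d : ℕ} {ε : ℝ} (hε : 0 ≤ ε) (v : Fin r → Fin d → ℤ)
    (hv : ∀ i, v i ≠ 0) (b : Fin r → ℝ) (h : ¬ Complementary ε v b) :
    ∃ (k : ℕ) (e : Fin k → Fin r) (l : Fin k → ℝ) (y : Fin d → ℤ), k ≤ d ∧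
      LinearIndependent ℝ (fun i j => (v (e i) j : ℝ) : Fin k → Fin d → ℝ) ∧
      (∀ i, 0 < l i) ∧ y ≠ 0 ∧ (∀ j, (y j : ℝ) = ∑ i, l i * (v (e i) j : ℝ)) ∧
      ∑ i, l i * (1 - b (e i)) < ε := by
  classical
  have hcard : ∀ (k : ℕ) (w : Fin k → Fin d → ℝ), LinearIndependent ℝ w → k ≤ d := by
    intro k w hw
    have := hw.fintype_card_le_finrank
    simpa using this
  by_cases h1 : ∃ i, 1 - b i < ε
  · obtain ⟨i, hi⟩ := h1
    have hne : (fun j => (v i j : ℝ)) ≠ 0 := by
      intro h2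
      apply hv i
      funext j
      have := congrFun h2 j
      simpa using this
    have hli : LinearIndependent ℝ (fun (_ : Fin 1) j => (v i j : ℝ) : Fin 1 → Fin d → ℝ) := by
      rw [linearIndependent_unique_iff]
      exact hne
    refine ⟨1, fun _ => i, fun _ => 1, v i, hcard 1 _ hli, hli, fun _ => one_pos, hv i,
      fun j => by simp, by simpa using hi⟩
  · push Not at h1
    have h' : ¬ ∀ x : Fin d → ℤ, x ≠ 0 → InCone v x →
        ∃ u : Fin d → ℝ, (∀ i, ev u (v i) ≤ 1 - b i) ∧ ε ≤ ev u x :=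
      fun h2 => h (complementary_of_pointwise hε v hv b h2)
    push Not at h'
    obtain ⟨x, hx, -, hu⟩ := h'
    have hc : ∀ i, 0 ≤ 1 - b i := fun i => hε.trans (h1 i)
    obtain ⟨S, a, haS, haS', hax, hac, hli⟩ := exists_basic (fun i j => (v i j : ℝ))
      (fun i => 1 - b i) hc (fun j => (x j : ℝ)) ε
      (exists_cheap (fun i j => (v i j : ℝ)) (fun i => 1 - b i) hc (fun j => (x j : ℝ)) ε (by
        rintro ⟨u, hu1, hu2⟩
        have h2 : ∀ z : Fin d → ℤ, ev u z = ∑ j, (z j : ℝ) * u j := fun z =>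
          Finset.sum_congr rfl fun j _ => mul_comm (u j) _
        have h3 := hu u fun i => by
          rw [h2]
          exact hu1 i
        rw [h2] at h3
        exact absurd hu2 (not_le.mpr h3)))
    let φ := S.equivFin.symm
    have hli' : LinearIndependent ℝ
        (fun i j => (v (φ i) j : ℝ) : Fin S.card → Fin d → ℝ) := by
      have := hli.comp φ φ.injective
      exact this
    have hsum : ∀ f : Fin r → ℝ, ∑ i, a i * f i = ∑ i : Fin S.card, a (φ i) * f (φ i) := by
      intro f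
      rw [← Finset.sum_subset (Finset.subset_univ S)
        (fun i _ hi => by rw [haS' i hi, zero_mul]), ← Finset.sum_coe_sort S]
      exact (Equiv.sum_comp φ (fun i : S => a i * f i)).symm
    refine ⟨S.card, fun i => φ i, fun i => a (φ i), x, hcard _ _ hli', hli',
      fun i => haS _ (φ i).2, hx, fun j => ?_, ?_⟩
    · rw [hax j, hsum]
    · rw [← hsum (fun i => 1 - b i)]
      exact hac

end Pool.Agent.Helper31.Toric
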