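import Mathlib

/-!
# Farkas' lemma for finite systems of linear inequalities (Fourier-Motzkin elimination)
-/

open Finset

namespace Pool.Agent.Helper31.Toric

/-- A number between two finite families. -/
theorem exists_between_families {α β : Type} [Fintype α] [Fintype β] (L : α → ℝ) (R : β → ℝ)
    (h : ∀ a b, L a ≤ R b) : ∃ t : ℝ, (∀ a, L a ≤ t) ∧ (∀ b, t ≤ R b) := by
  classical
  rcases isEmpty_or_nonempty α with hα | hα
  · rcases isEmpty_or_nonempty β with hβ | hβ
    · exact ⟨0, fun a => (hα.false a).elim, fun b => (hβ.false b).elim⟩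
    · obtain ⟨b, hb⟩ := Finite.exists_min R
      exact ⟨R b, fun a => (hα.false a).elim, hb⟩
  · obtain ⟨a, ha⟩ := Finite.exists_max L
    exact ⟨L a, ha, fun b => h a b⟩

/-- **Farkas' lemma**, affine form. -/
theorem farkas (d : ℕ) : ∀ (ι : Type) [Fintype ι] (A : ι → Fin d → ℝ) (c : ι → ℝ),
    (∃ u : Fin d → ℝ, ∀ i, ∑ j, A i j * u j ≤ c i) ∨
    (∃ l : ι → ℝ, (∀ i, 0 ≤ l i) ∧ (∀ j, ∑ i, l i * A i j = 0) ∧ ∑ i, l i * c i < 0) := by
  classical
  induction d with
  | zero =>
    intro ι _ A c
    by_cases h : ∀ i, 0 ≤ c i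
    · left
      exact ⟨0, fun i => by simpa using h i⟩
    · right
      push Not at h
      obtain ⟨i, hi⟩ := h
      refine ⟨fun k => if k = i then 1 else 0, fun k => ?_, fun j => j.elim0, ?_⟩
      · by_cases h : k = i
        · simp [h]
        · simp [h]
      · simpa using hi
  | succ d ih =>
    intro ι _ A c
    -- the weights of the eliminated system
    let κ : Type := {i : ι // A i 0 = 0} ⊕ ({i : ι // 0 < A i 0} × {i : ι // A i 0 < 0})
    let W : κ → ι → ℝ := fun k i => match k with
      | Sum.inl z => if i = z.1 then 1 else 0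
      | Sum.inr (p, m) => (if i = p.1 then - A m.1 0 else 0) + (if i = m.1 then A p.1 0 else 0)
    have hWl : ∀ (z : {i : ι // A i 0 = 0}) (f : ι → ℝ), ∑ i, W (Sum.inl z) i * f i = f z.1 := by
      intro z f
      simp [W]
    have hWr : ∀ (p : {i : ι // 0 < A i 0}) (m : {i : ι // A i 0 < 0}) (f : ι → ℝ),
        ∑ i, W (Sum.inr (p, m)) i * f i = - A m.1 0 * f p.1 + A p.1 0 * f m.1 := by
      intro p m f
      simp only [W, add_mul, Finset.sum_add_distrib, ite_mul, zero_mul, Finset.sum_ite_eq',
        Finset.mem_univ, if_true]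
    have hW0 : ∀ k i, 0 ≤ W k i := by
      intro k i
      rcases k with z | ⟨p, m⟩
      · simp only [W]
        split_ifs <;> norm_num
      · simp only [W]
        have hp := p.2
        have hm := m.2
        split_ifs <;> linarith
    have hWa : ∀ k, ∑ i, W k i * A i 0 = 0 := by
      intro k
      rcases k with z | ⟨p, m⟩
      · rw [hWl]; exact z.2
      · rw [hWr]; ring
    rcases ih κ (fun k j => ∑ i, W k i * A i j.succ) (fun k => ∑ i, W k i * c i) with
      ⟨u, hu⟩ | ⟨l, hl0, hl1, hl2⟩
    · left
      -- choose the first coordinate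
      have hsplit : ∀ k : κ, ∑ j, (∑ i, W k i * A i j.succ) * u j
          = ∑ i, W k i * ∑ j, A i (Fin.succ j) * u j := by
        intro k
        simp only [Finset.sum_mul, Finset.mul_sum]
        rw [Finset.sum_comm]
        refine Finset.sum_congr rfl fun i _ => Finset.sum_congr rfl fun j _ => by ring
      have hu' : ∀ k : κ, ∑ i, W k i * ∑ j, A i (Fin.succ j) * u j ≤ ∑ i, W k i * c i :=
        fun k => (hsplit k).symm.le.trans (hu k)
      have key := exists_between_families
        (fun m : {i : ι // A i 0 < 0} => (c m.1 - ∑ j, A m.1 (Fin.succ j) * u j) / A m.1 0)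
        (fun p : {i : ι // 0 < A i 0} => (c p.1 - ∑ j, A p.1 (Fin.succ j) * u j) / A p.1 0)
        (by
          intro m p
          have h1 := (hWr p m _).symm.le.trans ((hu' (Sum.inr (p, m))).trans (hWr p m _).le)
          have hp := p.2
          have hm := m.2
          rw [div_le_iff_of_neg hm, div_mul_eq_mul_div, div_le_iff₀ hp]
          nlinarith)
      obtain ⟨t, ht1, ht2⟩ := key
      refine ⟨Fin.cons t u, fun i => ?_⟩
      rw [Fin.sum_univ_succ]
      simp only [Fin.cons_zero, Fin.cons_succ]
      rcases lt_trichotomy (A i 0) 0 with h | h | h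
      · have h1 := ht1 ⟨i, h⟩
        simp only [] at h1
        rw [div_le_iff_of_neg h] at h1
        linarith
      · have h1 := (hWl ⟨i, h⟩ _).symm.le.trans ((hu' (Sum.inl ⟨i, h⟩)).trans (hWl ⟨i, h⟩ _).le)
        rw [h]
        linarith
      · have h1 := ht2 ⟨i, h⟩
        simp only [] at h1
        rw [le_div_iff₀ h] at h1
        linarith
    · right
      refine ⟨fun i => ∑ k, l k * W k i, fun i => Finset.sum_nonneg fun k _ =>
        mul_nonneg (hl0 k) (hW0 k i), fun j => ?_, ?_⟩
      · have h1 : ∑ i, (∑ k, l k * W k i) * A i j = ∑ k, l k * ∑ i, W k i * A i j := by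
          simp only [Finset.sum_mul, Finset.mul_sum]
          rw [Finset.sum_comm]
          refine Finset.sum_congr rfl fun k _ => Finset.sum_congr rfl fun i _ => by ring
        rw [h1]
        refine Fin.cases ?_ (fun j' => ?_) j
        · simp only [hWa, mul_zero, Finset.sum_const_zero]
        · exact hl1 j'
      · have h1 : ∑ i, (∑ k, l k * W k i) * c i = ∑ k, l k * ∑ i, W k i * c i := by
          simp only [Finset.sum_mul, Finset.mul_sum]
          rw [Finset.sum_comm]
          refine Finset.sum_congr rfl fun k _ => Finset.sum_congr rfl fun i _ => by ring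
        rw [h1]
        exact hl2

end Pool.Agent.Helper31.Toric
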