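import Pool.Agent.Helper31.Toric.Reduce

/-!
# Strong duality and finitely many vertices
-/

open Finset

namespace Pool.Agent.Helper31.Toric

/-- A non-negative combination is basic at `S`. -/
def Basic {r d : ℕ} (w : Fin r → Fin d → ℝ) (x : Fin d → ℝ) (S : Finset (Fin r))
    (a : Fin r → ℝ) : Prop :=
  (∀ i ∈ S, 0 < a i) ∧ (∀ i, i ∉ S → a i = 0) ∧ (∀ j, x j = ∑ i, a i * w i j) ∧
    LinearIndependent ℝ (fun i : S => w i)

theorem Basic.unique {r d : ℕ} {w : Fin r → Fin d → ℝ} {x : Fin d → ℝ} {S : Finset (Fin r)}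
    {a a' : Fin r → ℝ} (h : Basic w x S a) (h' : Basic w x S a') : a = a' := by
  classical
  have h1 := Fintype.linearIndependent_iff.mp h.2.2.2 (fun i => a i - a' i) (by
    funext j
    rw [Finset.sum_apply]
    simp only [Pi.smul_apply, smul_eq_mul, Pi.zero_apply]
    have h2 : ∑ i : S, (a i - a' i) * w i j = ∑ i ∈ S, (a i - a' i) * w i j :=
      Finset.sum_coe_sort S (fun i => (a i - a' i) * w i j)
    rw [h2, Finset.sum_subset (Finset.subset_univ S)
      (fun i _ hi => by rw [h.2.1 i hi, h'.2.1 i hi, sub_zero, zero_mul])]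
    simp only [sub_mul]
    rw [Finset.sum_sub_distrib, ← h.2.2.1 j, ← h'.2.2.1 j, sub_self])
  funext i
  by_cases hi : i ∈ S
  · exact sub_eq_zero.mp (h1 ⟨i, hi⟩)
  · rw [h.2.1 i hi, h'.2.1 i hi]

/-- The cheapest non-negative combination exists. -/
theorem exists_opt {r d : ℕ} (w : Fin r → Fin d → ℝ) (c : Fin r → ℝ) (hc : ∀ i, 0 ≤ c i)
    (x : Fin d → ℝ) (hx : ∃ a : Fin r → ℝ, (∀ i, 0 ≤ a i) ∧ ∀ j, x j = ∑ i, a i * w i j) :
    ∃ a : Fin r → ℝ, (∀ i, 0 ≤ a i) ∧ (∀ j, x j = ∑ i, a i * w i j) ∧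
      ∀ a' : Fin r → ℝ, (∀ i, 0 ≤ a' i) → (∀ j, x j = ∑ i, a' i * w i j) →
        ∑ i, a i * c i ≤ ∑ i, a' i * c i := by
  classical
  have hbas : ∀ ε : ℝ, (∃ a : Fin r → ℝ, (∀ i, 0 ≤ a i) ∧ (∀ j, x j = ∑ i, a i * w i j) ∧
      ∑ i, a i * c i < ε) → ∃ S a, Basic w x S a ∧ ∑ i, a i * c i < ε := by
    intro ε h
    obtain ⟨S, a, h1, h2, h3, h4, h5⟩ := exists_basic w c hc x ε h
    exact ⟨S, a, ⟨h1, h2, h3, h5⟩, h4⟩
  let T : Finset (Finset (Fin r)) := univ.filter fun S => ∃ a, Basic w x S a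
  have hT : T.Nonempty := by
    obtain ⟨a, ha0, hax⟩ := hx
    obtain ⟨S, a', h1, -⟩ := hbas (∑ i, a i * c i + 1) ⟨a, ha0, hax, by linarith⟩
    exact ⟨S, by simp only [T, Finset.mem_filter, Finset.mem_univ, true_and]; exact ⟨a', h1⟩⟩
  let f : Finset (Fin r) → ℝ := fun S =>
    if h : ∃ a, Basic w x S a then ∑ i, h.choose i * c i else 0
  obtain ⟨S, hS, hmin⟩ := Finset.exists_min_image T f hT
  have hS' : ∃ a, Basic w x S a := by
    simpa only [T, Finset.mem_filter, Finset.mem_univ, true_and] using hS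
  have hval : ∀ (S : Finset (Fin r)) (a : Fin r → ℝ), Basic w x S a →
      f S = ∑ i, a i * c i := by
    intro S a ha
    have h1 : ∃ a, Basic w x S a := ⟨a, ha⟩
    simp only [f, dif_pos h1]
    rw [h1.choose_spec.unique ha]
  obtain ⟨a, ha⟩ := hS'
  refine ⟨a, fun i => ?_, ha.2.2.1, fun a' ha' hxa' => ?_⟩
  · by_cases hi : i ∈ S
    · exact (ha.1 i hi).le
    · exact (ha.2.1 i hi).ge
  · by_contra hcon
    push Not at hcon
    obtain ⟨S', a'', h1, h2⟩ := hbas (∑ i, a i * c i) ⟨a', ha', hxa', hcon⟩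
    have h3 := hmin S' (by
      simp only [T, Finset.mem_filter, Finset.mem_univ, true_and]
      exact ⟨a'', h1⟩)
    rw [hval S a ha, hval S' a'' h1] at h3
    linarith

/-- Finitely many points of a polyhedron suffice. -/
theorem exists_finite {r d : ℕ} (w : Fin r → Fin d → ℝ) (c : Fin r → ℝ) (hc : ∀ i, 0 ≤ c i) :
    ∃ U : Finset (Fin d → ℝ), (∀ u ∈ U, ∀ i, ∑ j, w i j * u j ≤ c i) ∧
      ∀ x : Fin d → ℝ, (∃ a : Fin r → ℝ, (∀ i, 0 ≤ a i) ∧ ∀ j, x j = ∑ i, a i * w i j) →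
        ∀ u : Fin d → ℝ, (∀ i, ∑ j, w i j * u j ≤ c i) →
          ∃ u' ∈ U, ∑ j, x j * u j ≤ ∑ j, x j * u' j := by
  classical
  let F : Finset (Fin r) → (Fin d → ℝ) → Prop := fun S u =>
    (∀ i, ∑ j, w i j * u j ≤ c i) ∧ ∀ i ∈ S, ∑ j, w i j * u j = c i
  let f : Finset (Fin r) → Fin d → ℝ := fun S => if h : ∃ u, F S u then h.choose else 0
  have hf : ∀ S, (∃ u, F S u) → F S (f S) := by
    intro S h
    simp only [f, dif_pos h]
    exact h.choose_spec
  refine ⟨(univ.filter fun S => ∃ u, F S u).image f, ?_, ?_⟩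
  · intro u hu
    obtain ⟨S, hS, rfl⟩ := Finset.mem_image.mp hu
    exact (hf S (Finset.mem_filter.mp hS).2).1
  · intro x hx u hu
    obtain ⟨a, ha0, hax, hopt⟩ := exists_opt w c hc x hx
    have hpair : ∀ z : Fin d → ℝ, ∑ j, x j * z j = ∑ i, a i * ∑ j, w i j * z j := by
      intro z
      simp only [Finset.mul_sum]
      rw [Finset.sum_comm]
      refine Finset.sum_congr rfl fun j _ => ?_
      rw [hax j, Finset.sum_mul]
      exact Finset.sum_congr rfl fun i _ => by ring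
    -- a point of the polyhedron attaining the optimum
    obtain ⟨u1, hu1, hu1x⟩ : ∃ u1 : Fin d → ℝ, (∀ i, ∑ j, w i j * u1 j ≤ c i) ∧
        ∑ i, a i * c i ≤ ∑ j, x j * u1 j := by
      by_contra hcon
      obtain ⟨a', ha', hxa', hlt⟩ := exists_cheap w c hc x (∑ i, a i * c i) hcon
      exact absurd hlt (not_lt.mpr (hopt a' ha' hxa'))
    let S : Finset (Fin r) := univ.filter fun i => a i ≠ 0
    have hFS : F S u1 := by
      refine ⟨hu1, fun i hi => ?_⟩
      have hai : a i ≠ 0 := (Finset.mem_filter.mp hi).2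
      have hai' : 0 < a i := lt_of_le_of_ne (ha0 i) (Ne.symm hai)
      rw [hpair] at hu1x
      by_contra hne
      have hlt : ∑ j, w i j * u1 j < c i := lt_of_le_of_ne (hu1 i) hne
      have : ∑ i, a i * ∑ j, w i j * u1 j < ∑ i, a i * c i :=
        Finset.sum_lt_sum (fun i' _ => mul_le_mul_of_nonneg_left (hu1 i') (ha0 i'))
          ⟨i, Finset.mem_univ i, mul_lt_mul_of_pos_left hlt hai'⟩
      linarith
    refine ⟨f S, Finset.mem_image.mpr ⟨S, Finset.mem_filter.mpr ⟨Finset.mem_univ _, u1, hFS⟩,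
      rfl⟩, ?_⟩
    have hfS := hf S ⟨u1, hFS⟩
    rw [hpair, hpair]
    refine Finset.sum_le_sum fun i _ => ?_
    by_cases hi : a i = 0
    · rw [hi, zero_mul, zero_mul]
    · rw [hfS.2 i (Finset.mem_filter.mpr ⟨Finset.mem_univ i, hi⟩)]
      exact mul_le_mul_of_nonneg_left (hu i) (ha0 i)

end Pool.Agent.Helper31.Toric
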