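import Pool.Agent.Helper31.Toric.NSS

/-!
# Limits of subgroups containing the integer lattice
-/

open Finset Filter Topology

namespace Pool.Agent.Helper31.Toric

variable {k : ℕ}

/-- The integer vector `z` as a point of Euclidean space. -/
noncomputable def intVec (z : Fin k → ℤ) : EuclideanSpace ℝ (Fin k) :=
  WithLp.toLp 2 (fun i => (z i : ℝ))

theorem intVec_apply (z : Fin k → ℤ) (i : Fin k) : intVec z i = (z i : ℝ) := rfl

/-- The limit of a sequence of subgroups along an ultrafilter. -/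
def limG (𝒰 : Ultrafilter ℕ) (H : ℕ → AddSubgroup (EuclideanSpace ℝ (Fin k))) :
    AddSubgroup (EuclideanSpace ℝ (Fin k)) where
  carrier := {x | ∀ δ : ℝ, 0 < δ → ∀ᶠ n in (𝒰 : Filter ℕ), ∃ h ∈ H n, ‖h - x‖ < δ}
  add_mem' := by
    intro a b ha hb δ hδ
    filter_upwards [ha (δ / 2) (by positivity), hb (δ / 2) (by positivity)] with n h1 h2
    obtain ⟨x, hx, hx1⟩ := h1
    obtain ⟨y, hy, hy1⟩ := h2
    refine ⟨x + y, (H n).add_mem hx hy, ?_⟩
    have h3 : x + y - (a + b) = (x - a) + (y - b) := by abel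
    rw [h3]
    calc ‖(x - a) + (y - b)‖ ≤ ‖x - a‖ + ‖y - b‖ := norm_add_le _ _
      _ < δ := by linarith
  zero_mem' := by
    intro δ hδ
    exact Eventually.of_forall fun n => ⟨0, (H n).zero_mem, by simpa using hδ⟩
  neg_mem' := by
    intro a ha δ hδ
    filter_upwards [ha δ hδ] with n h1
    obtain ⟨x, hx, hx1⟩ := h1
    refine ⟨-x, (H n).neg_mem hx, ?_⟩
    have h3 : -x - -a = -(x - a) := by abel
    rw [h3, norm_neg]
    exact hx1

theorem mem_limG (𝒰 : Ultrafilter ℕ) (H : ℕ → AddSubgroup (EuclideanSpace ℝ (Fin k)))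
    (x : EuclideanSpace ℝ (Fin k)) :
    x ∈ limG 𝒰 H ↔ ∀ δ : ℝ, 0 < δ → ∀ᶠ n in (𝒰 : Filter ℕ), ∃ h ∈ H n, ‖h - x‖ < δ := Iff.rfl

theorem isClosed_limG (𝒰 : Ultrafilter ℕ) (H : ℕ → AddSubgroup (EuclideanSpace ℝ (Fin k))) :
    IsClosed (limG 𝒰 H : Set (EuclideanSpace ℝ (Fin k))) := by
  rw [← closure_subset_iff_isClosed]
  intro x hx
  rw [SetLike.mem_coe, mem_limG]
  intro δ hδ
  obtain ⟨y, hy, hxy⟩ := Metric.mem_closure_iff.mp hx (δ / 2) (by positivity)
  filter_upwards [(mem_limG 𝒰 H y).mp hy (δ / 2) (by positivity)] with n h1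
  obtain ⟨h, hh, hh1⟩ := h1
  refine ⟨h, hh, ?_⟩
  rw [dist_eq_norm, norm_sub_rev] at hxy
  have h3 : h - x = (h - y) + (y - x) := by abel
  rw [h3]
  calc ‖(h - y) + (y - x)‖ ≤ ‖h - y‖ + ‖y - x‖ := norm_add_le _ _
    _ < δ := by linarith

/-- **Limit lemma**: some member of a sequence of subgroups containing the integer lattice is
approximated, element by element, by later members. -/
theorem exists_limit (H : ℕ → AddSubgroup (EuclideanSpace ℝ (Fin k)))
    (hH : ∀ n, ∀ z : Fin k → ℤ, intVec z ∈ H n) :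
    ∃ n, ∀ h ∈ H n, ∀ δ : ℝ, 0 < δ → ∃ᶠ j in atTop, ∃ μ ∈ H j, ‖μ - h‖ < δ := by
  set 𝒰 : Ultrafilter ℕ := hyperfilter ℕ with h𝒰
  have h𝒰le : (𝒰 : Filter ℕ) ≤ atTop := by
    rw [← Nat.cofinite_eq_atTop]
    exact hyperfilter_le_cofinite
  set G := limG 𝒰 H with hG
  have hzG : ∀ z : Fin k → ℤ, intVec z ∈ G := by
    intro z
    rw [hG, mem_limG]
    intro δ hδ
    exact Eventually.of_forall fun n => ⟨intVec z, hH n z, by simpa using hδ⟩
  obtain ⟨ρ, hρ, hnss⟩ := exists_nss G (isClosed_limG 𝒰 H)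
  by_contra hcon
  push Not at hcon
  choose h hhH δ hδ hfreq using hcon
  have hnG : ∀ n, h n ∉ G := by
    intro n hn
    obtain ⟨j, ⟨μ, hμ1, hμ2⟩, hj⟩ :=
      (((mem_limG 𝒰 H _).mp hn (δ n) (hδ n)).and (h𝒰le (hfreq n))).exists
    exact absurd hμ2 (not_lt.mpr (hj μ hμ1))
  have h1 : ∀ n, ∃ m : ℕ, ∀ g ∈ G, ρ ≤ ‖(m : ℝ) • h n - g‖ := by
    intro n
    by_contra hc
    push Not at hc
    exact hnG n (hnss (h n) hc)
  choose m hm using h1
  let z : ℕ → Fin k → ℤ := fun n i => ⌊(m n : ℝ) * h n i⌋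
  let w : ℕ → EuclideanSpace ℝ (Fin k) := fun n => (m n : ℝ) • h n - intVec (z n)
  have hwH : ∀ n, w n ∈ H n := by
    intro n
    refine (H n).sub_mem ?_ (hH n _)
    have := (H n).nsmul_mem (hhH n) (m n)
    rwa [← Nat.cast_smul_eq_nsmul ℝ] at this
  have hwB : ∀ n, w n ∈ Metric.closedBall (0 : EuclideanSpace ℝ (Fin k)) (Real.sqrt k) := by
    intro n
    rw [mem_closedBall_zero_iff, EuclideanSpace.norm_eq]
    apply Real.sqrt_le_sqrt
    calc ∑ i, ‖w n i‖ ^ 2 ≤ ∑ _i : Fin k, (1 : ℝ) := by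
          refine Finset.sum_le_sum fun i _ => ?_
          have h2 : w n i = Int.fract ((m n : ℝ) * h n i) := by
            simp only [w, PiLp.sub_apply, PiLp.smul_apply, smul_eq_mul, intVec_apply, z]
            rfl
          rw [h2, Real.norm_eq_abs, sq_abs]
          have h3 := Int.fract_nonneg ((m n : ℝ) * h n i)
          have h4 := Int.fract_lt_one ((m n : ℝ) * h n i)
          nlinarith
      _ = k := by simp
  obtain ⟨a, -, ha⟩ := (isCompact_closedBall (0 : EuclideanSpace ℝ (Fin k))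
    (Real.sqrt k)).ultrafilter_le_nhds (𝒰.map w) (by
      rw [le_principal_iff]
      exact Filter.mem_map.mpr (Filter.univ_mem' hwB))
  have hlim : Tendsto w 𝒰 (𝓝 a) := ha
  have hev : ∀ δ : ℝ, 0 < δ → ∀ᶠ n in (𝒰 : Filter ℕ), ‖w n - a‖ < δ := by
    intro δ hδ
    have h2 := Metric.tendsto_nhds.mp hlim δ hδ
    filter_upwards [h2] with n h3
    rwa [dist_eq_norm] at h3
  have haG : a ∈ G := by
    rw [hG, mem_limG]
    intro δ hδ
    filter_upwards [hev δ hδ] with n h3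
    exact ⟨w n, hwH n, h3⟩
  obtain ⟨n, hn⟩ := (hev ρ hρ).exists
  have h5 := hm n (a + intVec (z n)) (G.add_mem haG (hzG _))
  have h6 : (m n : ℝ) • h n - (a + intVec (z n)) = w n - a := by
    simp only [w]
    abel
  rw [h6] at h5
  exact absurd hn (not_lt.mpr h5)

end Pool.Agent.Helper31.Toric
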