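import Pool.Agent.Helper31.Toric.Defs
import Pool.Agent.Helper31.Toric.Limit

/-!
# ACC for toric complementary thresholds
-/

open Finset Filter Topology
open scoped ENNReal

namespace Pool.Agent.Helper31.Toric

theorem mono_subseq {Γ : Set ℝ} (h : DCC Γ) (f : ℕ → ℝ) (hf : ∀ n, f n ∈ Γ) :
    ∃ g : ℕ → ℕ, StrictMono g ∧ Monotone (f ∘ g) := by
  obtain ⟨g, hg⟩ := exists_increasing_or_nonincreasing_subseq (fun a b : ℝ => b < a) f
  rcases hg with hg | hg
  · exfalso
    exact h ⟨f ∘ g, fun m n hmn => hg m n hmn, fun n => hf _⟩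
  · refine ⟨g, g.strictMono, ?_⟩
    intro m n hmn
    rcases hmn.lt_or_eq with h1 | h1
    · exact not_lt.mp (hg m n h1)
    · rw [h1]

theorem mono_subseq_finset {ι : Type} [DecidableEq ι] (s : Finset ι) (f : ι → ℕ → ℝ)
    (Γ : ι → Set ℝ) (hΓ : ∀ i, DCC (Γ i)) (hf : ∀ i n, f i n ∈ Γ i) :
    ∃ g : ℕ → ℕ, StrictMono g ∧ ∀ i ∈ s, Monotone (f i ∘ g) := by
  induction s using Finset.induction_on with
  | empty => exact ⟨id, strictMono_id, fun i hi => absurd hi (Finset.notMem_empty i)⟩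
  | insert a s _ ih =>
    obtain ⟨g, hg, hgs⟩ := ih
    obtain ⟨g', hg', hg2⟩ := mono_subseq (hΓ a) (f a ∘ g) (fun n => hf a _)
    refine ⟨g ∘ g', hg.comp hg', fun i hi => ?_⟩
    rcases Finset.mem_insert.mp hi with h1 | h1
    · rw [h1]
      exact hg2
    · exact (hgs i h1).comp hg'.monotone

/-- The subgroup of coefficient vectors whose combination is an integer vector. -/
def coefGroup {k d : ℕ} (V : Fin k → Fin d → ℤ) : AddSubgroup (EuclideanSpace ℝ (Fin k)) where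
  carrier := {x | ∃ z : Fin d → ℤ, ∀ j, (z j : ℝ) = ∑ i, x i * (V i j : ℝ)}
  add_mem' := by
    rintro a b ⟨z, hz⟩ ⟨z', hz'⟩
    refine ⟨z + z', fun j => ?_⟩
    simp only [Pi.add_apply, Int.cast_add, hz j, hz' j, PiLp.add_apply, add_mul,
      Finset.sum_add_distrib]
  zero_mem' := ⟨0, fun j => by simp⟩
  neg_mem' := by
    rintro a ⟨z, hz⟩
    refine ⟨-z, fun j => ?_⟩
    simp only [Pi.neg_apply, Int.cast_neg, hz j, PiLp.neg_apply, neg_mul, Finset.sum_neg_distrib]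

theorem mem_coefGroup {k d : ℕ} (V : Fin k → Fin d → ℤ) (x : EuclideanSpace ℝ (Fin k)) :
    x ∈ coefGroup V ↔ ∃ z : Fin d → ℤ, ∀ j, (z j : ℝ) = ∑ i, x i * (V i j : ℝ) := Iff.rfl

/-- The heart of the argument. -/
theorem core {d k : ℕ} {E Γ₁ Γ₂ : Set ℝ} (hE : DCC E) (h1 : DCC Γ₁) (h2 : DCC Γ₂)
    (ε s : ℕ → ℝ) (β γ : ℕ → Fin k → ℝ) (V : ℕ → Fin k → Fin d → ℤ) (l : ℕ → Fin k → ℝ)
    (y : ℕ → Fin d → ℤ) (hε : ∀ n, ε n ∈ E) (hβ : ∀ n i, β n i ∈ Γ₁) (hγ : ∀ n i, γ n i ∈ Γ₂)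
    (hs : ∀ n, 0 ≤ s n)
    (hV : ∀ n, LinearIndependent ℝ (fun i j => (V n i j : ℝ) : Fin k → Fin d → ℝ))
    (hl : ∀ n i, 0 < l n i) (hy : ∀ n, y n ≠ 0)
    (hly : ∀ n j, (y n j : ℝ) = ∑ i, l n i * (V n i j : ℝ))
    (hlt : ∀ n, ∑ i, l n i * (1 - (β n i + s n * γ n i)) < ε n)
    (hge : ∀ n j, n < j → ∀ (μ : Fin k → ℝ) (z : Fin d → ℤ), (∀ i, 0 ≤ μ i) → z ≠ 0 →
      (∀ j', (z j' : ℝ) = ∑ i, μ i * (V j i j' : ℝ)) →
      ε j ≤ ∑ i, μ i * (1 - (β j i + s n * γ j i))) : False := by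
  classical
  -- `k` is positive
  have hk : Nonempty (Fin k) := by
    by_contra hk
    rw [not_nonempty_iff] at hk
    apply hy 0
    funext j
    have := hly 0 j
    simpa using this
  -- monotone subsequence
  obtain ⟨g, hg, hmono⟩ := mono_subseq_finset (ι := Unit ⊕ (Fin k ⊕ Fin k)) Finset.univ
    (Sum.elim (fun _ => ε) (Sum.elim (fun i n => β n i) (fun i n => γ n i)))
    (Sum.elim (fun _ => E) (Sum.elim (fun _ => Γ₁) (fun _ => Γ₂)))
    (by
      rintro (i | i | i)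
      · exact hE
      · exact h1
      · exact h2)
    (by
      rintro (i | i | i) n
      · exact hε n
      · exact hβ n i
      · exact hγ n i)
  have mε : Monotone (ε ∘ g) := hmono (Sum.inl ()) (Finset.mem_univ _)
  have mβ : ∀ i, Monotone ((fun n => β n i) ∘ g) := fun i =>
    hmono (Sum.inr (Sum.inl i)) (Finset.mem_univ _)
  have mγ : ∀ i, Monotone ((fun n => γ n i) ∘ g) := fun i =>
    hmono (Sum.inr (Sum.inr i)) (Finset.mem_univ _)
  -- the limit lemma
  obtain ⟨n, hn⟩ := exists_limit (fun n => coefGroup (V (g n))) (fun n z => by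
    rw [mem_coefGroup]
    refine ⟨fun j => ∑ i, z i * V (g n) i j, fun j => ?_⟩
    push_cast
    exact Finset.sum_congr rfl fun i _ => rfl)
  set c : Fin k → ℝ := fun i => 1 - (β (g n) i + s (g n) * γ (g n) i) with hc
  have hgap : 0 < ε (g n) - ∑ i, l (g n) i * c i := by
    have := hlt (g n)
    simp only [hc]
    linarith
  set C : ℝ := ∑ i, |c i| with hC
  have hC0 : 0 ≤ C := Finset.sum_nonneg fun i _ => abs_nonneg _
  obtain ⟨i0, hi0⟩ := Finite.exists_min (l (g n))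
  set δ : ℝ := min (l (g n) i0) ((ε (g n) - ∑ i, l (g n) i * c i) / (1 + C)) with hδ
  have hδ0 : 0 < δ := lt_min (hl _ _) (by positivity)
  obtain ⟨j, ⟨μ, hμH, hμδ⟩, hj⟩ := ((hn (WithLp.toLp 2 (l (g n))) (by
    rw [mem_coefGroup]
    exact ⟨y (g n), fun j => hly (g n) j⟩) δ hδ0).and_eventually
      (eventually_gt_atTop n)).exists
  have hμl : ∀ i, |μ i - l (g n) i| < δ := by
    intro i
    refine lt_of_le_of_lt ?_ hμδ
    have := PiLp.norm_apply_le (μ - WithLp.toLp 2 (l (g n))) i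
    rwa [PiLp.sub_apply, Real.norm_eq_abs] at this
  have hμ0 : ∀ i, 0 < μ i := by
    intro i
    have h3 := hμl i
    rw [abs_lt] at h3
    have h4 : δ ≤ l (g n) i0 := min_le_left _ _
    have h5 := hi0 i
    linarith [h3.1]
  rw [mem_coefGroup] at hμH
  obtain ⟨z, hz⟩ := hμH
  have hz0 : z ≠ 0 := by
    intro h0
    have h3 := Fintype.linearIndependent_iff.mp (hV (g j)) μ (by
      funext j'
      have := hz j'
      rw [h0] at this
      simp only [Pi.zero_apply, Int.cast_zero] at this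
      rw [Finset.sum_apply]
      simp only [Pi.smul_apply, smul_eq_mul, Pi.zero_apply]
      exact this.symm)
    obtain ⟨i⟩ := hk
    exact (hμ0 i).ne' (h3 i)
  have hgj : g n < g j := hg hj
  have h3 := hge (g n) (g j) hgj μ z (fun i => (hμ0 i).le) hz0 hz
  have h4 : ε (g n) ≤ ε (g j) := mε hj.le
  have h5 : ∑ i, μ i * (1 - (β (g j) i + s (g n) * γ (g j) i)) ≤ ∑ i, μ i * c i := by
    refine Finset.sum_le_sum fun i _ => mul_le_mul_of_nonneg_left ?_ (hμ0 i).le
    have h6 : β (g n) i ≤ β (g j) i := mβ i hj.le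
    have h7 : γ (g n) i ≤ γ (g j) i := mγ i hj.le
    have h8 := mul_le_mul_of_nonneg_left h7 (hs (g n))
    simp only [hc]
    linarith
  have h6 : ∑ i, μ i * c i ≤ ∑ i, l (g n) i * c i + δ * C := by
    have h7 : ∑ i, μ i * c i - ∑ i, l (g n) i * c i ≤ δ * C := by
      rw [← Finset.sum_sub_distrib, hC, Finset.mul_sum]
      refine Finset.sum_le_sum fun i _ => ?_
      calc μ i * c i - l (g n) i * c i = (μ i - l (g n) i) * c i := by ring
        _ ≤ |(μ i - l (g n) i) * c i| := le_abs_self _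
        _ = |μ i - l (g n) i| * |c i| := abs_mul _ _
        _ ≤ δ * |c i| := mul_le_mul_of_nonneg_right (hμl i).le (abs_nonneg _)
    linarith
  have h7 : δ * C < ε (g n) - ∑ i, l (g n) i * c i := by
    have h8 : δ * (1 + C) ≤ ε (g n) - ∑ i, l (g n) i * c i := by
      have h9 : δ ≤ (ε (g n) - ∑ i, l (g n) i * c i) / (1 + C) := min_le_right _ _
      rwa [le_div_iff₀ (by positivity)] at h9
    nlinarith
  linarith

/-- **ACC for toric complementary thresholds.** -/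
theorem acc_thresholds (d : ℕ) {E Γ₁ Γ₂ : Set ℝ} (hE : DCC E) (h1 : DCC Γ₁) (h2 : DCC Γ₂) :
    ACC (thresholds d E Γ₁ Γ₂) := by
  classical
  rintro ⟨t, ht, hmem⟩
  simp only [thresholds] at hmem
  choose ε hε r v b m hε0 hv hb hm hcomp hthr using hmem
  have hs : ∀ n, ∃ s : ℝ, 0 ≤ s ∧ t n < ENNReal.ofReal s ∧ ENNReal.ofReal s < t (n + 1) :=
    fun n => ENNReal.lt_iff_exists_real_btwn.mp (ht (Nat.lt_succ_self n))
  choose s hs0 hs1 hs2 using hs
  have hnot : ∀ n, ¬ Complementary (ε n) (v n) (fun i => b n i + s n * m n i) := by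
    intro n hcon
    have h3 : ENNReal.ofReal (s n) ≤ t n := by
      rw [hthr n]
      exact le_iSup₂_of_le (s n) ⟨hs0 n, hcon⟩ le_rfl
    exact absurd (hs1 n) (not_lt.mpr h3)
  have hyes : ∀ n j, n < j → Complementary (ε j) (v j) (fun i => b j i + s n * m j i) := by
    intro n j hnj
    have h3 : ENNReal.ofReal (s n) < threshold (ε j) (v j) (b j) (m j) := by
      rw [← hthr j]
      exact (hs2 n).trans_le (ht.monotone hnj)
    rw [threshold, lt_iSup_iff] at h3
    obtain ⟨s', h3⟩ := h3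
    rw [lt_iSup_iff] at h3
    obtain ⟨⟨hs', hcs'⟩, h3⟩ := h3
    have h4 : s n ≤ s' := by
      by_contra h5
      push Not at h5
      exact absurd h3 (not_lt.mpr (ENNReal.ofReal_le_ofReal h5.le))
    exact hcs'.mono fun i => by
      have := mul_le_mul_of_nonneg_right h4 (hm j i).2
      linarith
  -- violators
  have hviol := fun n => exists_violator (hε0 n) (v n) (hv n) _ (hnot n)
  choose k hk using hviol
  have hkd : ∀ n, k n ≤ d := fun n => by
    obtain ⟨e, l, y, h3, -⟩ := hk n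
    exact h3
  obtain ⟨K, hK⟩ : ∃ K : ℕ, ∃ᶠ n in atTop, k n = K := by
    by_contra hcon
    push Not at hcon
    have h3 : ∀ᶠ n in atTop, ∀ K ∈ Finset.range (d + 1), ¬ k n = K := by
      rw [Filter.eventually_all_finset]
      intro K _
      exact hcon K
    obtain ⟨n, hn⟩ := h3.exists
    exact hn (k n) (Finset.mem_range.mpr (Nat.lt_succ_of_le (hkd n))) rfl
  obtain ⟨φ, hφ, hφK⟩ := Filter.extraction_of_frequently_atTop hK
  have hk' : ∀ n, ∃ (e : Fin K → Fin (r (φ n))) (l : Fin K → ℝ) (y : Fin d → ℤ),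
      LinearIndependent ℝ (fun i j => (v (φ n) (e i) j : ℝ) : Fin K → Fin d → ℝ) ∧
      (∀ i, 0 < l i) ∧ y ≠ 0 ∧ (∀ j, (y j : ℝ) = ∑ i, l i * (v (φ n) (e i) j : ℝ)) ∧
      ∑ i, l i * (1 - (b (φ n) (e i) + s (φ n) * m (φ n) (e i))) < ε (φ n) := by
    intro n
    obtain ⟨e, l, y, -, h3⟩ := hk (φ n)
    have h4 := hφK n
    generalize k (φ n) = K' at *
    subst h4
    exact ⟨e, l, y, h3⟩
  choose e l y hli hl hy hly hlt using hk'
  refine core hE h1 h2 (fun n => ε (φ n)) (fun n => s (φ n)) (fun n i => b (φ n) (e n i))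
    (fun n i => m (φ n) (e n i)) (fun n i => v (φ n) (e n i)) l y (fun n => hε _)
    (fun n i => (hb _ _).1) (fun n i => (hm _ _).1) (fun n => hs0 _) hli hl hy hly hlt
    (fun n j hnj μ z hμ hz0 hz => ?_)
  exact (hyes (φ n) (φ j) (hφ hnj)).le_sum (e j) μ hμ z hz0 hz

end Pool.Agent.Helper31.Toric
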