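import Mathlib

/-!
# Closed subgroups of Euclidean space: no small subgroups in the quotient
-/

open Finset Filter Topology

namespace Pool.Agent.Helper31.Toric

variable {k : ℕ}

local instance : Fact (1 ≤ (2 : ENNReal)) := ⟨by norm_num⟩

/-- The largest linear subspace of a subgroup. -/
def linPart (G : AddSubgroup (EuclideanSpace ℝ (Fin k))) :
    Submodule ℝ (EuclideanSpace ℝ (Fin k)) where
  carrier := {v | ∀ t : ℝ, t • v ∈ G}
  add_mem' := by
    intro a b ha hb t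
    rw [smul_add]
    exact G.add_mem (ha t) (hb t)
  zero_mem' := by
    intro t
    rw [smul_zero]
    exact G.zero_mem
  smul_mem' := by
    intro c x hx t
    rw [smul_smul]
    exact hx (t * c)

theorem mem_linPart (G : AddSubgroup (EuclideanSpace ℝ (Fin k))) (v : EuclideanSpace ℝ (Fin k)) :
    v ∈ linPart G ↔ ∀ t : ℝ, t • v ∈ G := Iff.rfl

theorem linPart_le (G : AddSubgroup (EuclideanSpace ℝ (Fin k))) {v : EuclideanSpace ℝ (Fin k)}
    (hv : v ∈ linPart G) : v ∈ G := by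
  have := hv 1
  rwa [one_smul] at this

/-- Small elements of a closed subgroup lie in its linear part. -/
theorem exists_ball_linPart (G : AddSubgroup (EuclideanSpace ℝ (Fin k)))
    (hG : IsClosed (G : Set (EuclideanSpace ℝ (Fin k)))) :
    ∃ ρ : ℝ, 0 < ρ ∧ ∀ g ∈ G, ‖g‖ < ρ → g ∈ linPart G := by
  by_contra hcon
  push Not at hcon
  have h1 : ∀ n : ℕ, ∃ g ∈ G, ‖g‖ < 1 / ((n : ℝ) + 1) ∧ g ∉ linPart G := fun n => by
    obtain ⟨g, hg, hg1, hg2⟩ := hcon (1 / ((n : ℝ) + 1)) (by positivity)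
    exact ⟨g, hg, hg1, hg2⟩
  choose g hgG hgn hgV using h1
  set V := linPart G with hV
  let w : ℕ → EuclideanSpace ℝ (Fin k) := fun n => g n - V.starProjection (g n)
  have hwG : ∀ n, w n ∈ G := fun n =>
    G.sub_mem (hgG n) (linPart_le G (Submodule.starProjection_apply_mem V (g n)))
  have hwV : ∀ n, w n ∈ Vᗮ := fun n => Submodule.sub_starProjection_mem_orthogonal (g n)
  have hw0 : ∀ n, w n ≠ 0 := by
    intro n h0
    apply hgV n
    have h2 : g n = V.starProjection (g n) := sub_eq_zero.mp h0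
    rw [h2]
    exact Submodule.starProjection_apply_mem V (g n)
  have hwn : ∀ n, 0 < ‖w n‖ := fun n => norm_pos_iff.mpr (hw0 n)
  have hwle : ∀ n, ‖w n‖ ≤ ‖g n‖ := by
    intro n
    have h2 : w n = Vᗮ.starProjection (g n) := by
      rw [Submodule.starProjection_orthogonal_val]
    rw [h2]
    exact Submodule.norm_starProjection_apply_le _ _
  have hwlim : Tendsto (fun n => ‖w n‖) atTop (𝓝 0) := by
    refine squeeze_zero (fun n => norm_nonneg _) (fun n => (hwle n).trans (hgn n).le) ?_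
    exact tendsto_one_div_add_atTop_nhds_zero_nat
  -- unit vectors
  let u : ℕ → EuclideanSpace ℝ (Fin k) := fun n => ‖w n‖⁻¹ • w n
  have hu1 : ∀ n, u n ∈ Metric.sphere (0 : EuclideanSpace ℝ (Fin k)) 1 := by
    intro n
    rw [mem_sphere_zero_iff_norm, norm_smul, norm_inv, norm_norm,
      inv_mul_cancel₀ (hwn n).ne']
  obtain ⟨a, ha, φ, hφ, hlim⟩ := (isCompact_sphere (0 : EuclideanSpace ℝ (Fin k)) 1).tendsto_subseq hu1
  have haV : a ∈ Vᗮ := by
    refine (Submodule.isClosed_orthogonal V).mem_of_tendsto hlim (Eventually.of_forall fun n => ?_)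
    exact Vᗮ.smul_mem _ (hwV _)
  have haG : a ∈ V := by
    rw [hV, mem_linPart]
    intro t
    -- approximate by integer multiples
    have hmem : ∀ n, (⌊t / ‖w (φ n)‖⌋ : ℤ) • w (φ n) ∈ G := fun n => G.zsmul_mem (hwG _) _
    refine hG.mem_of_tendsto (f := fun n => (⌊t / ‖w (φ n)‖⌋ : ℤ) • w (φ n)) (b := atTop) ?_
      (Eventually.of_forall hmem)
    have h2 : Tendsto (fun n => t • u (φ n)) atTop (𝓝 (t • a)) := hlim.const_smul t
    have h3 : Tendsto (fun n => (⌊t / ‖w (φ n)‖⌋ : ℤ) • w (φ n) - t • u (φ n)) atTop (𝓝 0) := by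
      rw [tendsto_zero_iff_norm_tendsto_zero]
      refine squeeze_zero (fun n => norm_nonneg _) (fun n => ?_) (hwlim.comp hφ.tendsto_atTop)
      have h4 : (⌊t / ‖w (φ n)‖⌋ : ℤ) • w (φ n) - t • u (φ n)
          = ((⌊t / ‖w (φ n)‖⌋ : ℤ) - t / ‖w (φ n)‖ : ℝ) • w (φ n) := by
        rw [sub_smul, ← Int.cast_smul_eq_zsmul ℝ, smul_smul, div_eq_mul_inv]
      rw [h4, norm_smul]
      have h5 : ‖((⌊t / ‖w (φ n)‖⌋ : ℤ) - t / ‖w (φ n)‖ : ℝ)‖ ≤ 1 := by
        rw [Real.norm_eq_abs, abs_le]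
        constructor
        · have := Int.lt_floor_add_one (t / ‖w (φ n)‖)
          linarith
        · have := Int.floor_le (t / ‖w (φ n)‖)
          linarith
      calc ‖((⌊t / ‖w (φ n)‖⌋ : ℤ) - t / ‖w (φ n)‖ : ℝ)‖ * ‖w (φ n)‖
          ≤ 1 * ‖w (φ n)‖ := mul_le_mul_of_nonneg_right h5 (norm_nonneg _)
        _ = ‖w (φ n)‖ := one_mul _
    have h6 := h3.add h2
    simpa using h6
  have h7 : a = 0 := by
    have := (Submodule.mem_orthogonal V a).mp haV a haG
    exact inner_self_eq_zero.mp this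
  rw [mem_sphere_zero_iff_norm, h7, norm_zero] at ha
  exact zero_ne_one ha

/-- **No small subgroups.** -/
theorem exists_nss (G : AddSubgroup (EuclideanSpace ℝ (Fin k)))
    (hG : IsClosed (G : Set (EuclideanSpace ℝ (Fin k)))) :
    ∃ ρ : ℝ, 0 < ρ ∧ ∀ h : EuclideanSpace ℝ (Fin k),
      (∀ m : ℕ, ∃ g ∈ G, ‖(m : ℝ) • h - g‖ < ρ) → h ∈ G := by
  obtain ⟨ρ, hρ, hball⟩ := exists_ball_linPart G hG
  refine ⟨ρ / 4, by positivity, fun h hh => ?_⟩
  choose g hgG hgm using hh
  set V := linPart G with hV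
  have key : ∀ m : ℕ, g (m + 1) - ((m + 1 : ℕ) : ℝ) • g 1 ∈ V := by
    intro m
    induction m with
    | zero => simp
    | succ m ih =>
      have h1 : g (m + 1 + 1) - g (m + 1) - g 1 ∈ V := by
        apply hball _ (G.sub_mem (G.sub_mem (hgG _) (hgG _)) (hgG _))
        have h3 := hgm (m + 1 + 1)
        have h4 := hgm (m + 1)
        have h5 := hgm 1
        set A := ((m + 1 + 1 : ℕ) : ℝ) • h - g (m + 1 + 1) with hA
        set B := ((m + 1 : ℕ) : ℝ) • h - g (m + 1) with hB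
        set C := ((1 : ℕ) : ℝ) • h - g 1 with hC
        have h2 : g (m + 1 + 1) - g (m + 1) - g 1 = -A + B + C := by
          rw [hA, hB, hC]
          push_cast
          module
        rw [h2]
        calc ‖-A + B + C‖ ≤ ‖-A‖ + ‖B‖ + ‖C‖ := norm_add₃_le
          _ = ‖A‖ + ‖B‖ + ‖C‖ := by rw [norm_neg]
          _ < ρ := by linarith
      have h6 := V.add_mem ih h1
      have h7 : g (m + 1) - ((m + 1 : ℕ) : ℝ) • g 1 + (g (m + 1 + 1) - g (m + 1) - g 1)
          = g (m + 1 + 1) - ((m + 1 + 1 : ℕ) : ℝ) • g 1 := by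
        push_cast
        module
      rwa [h7] at h6
  -- `h - g 1` is in `V`
  have hclosed : IsClosed (V : Set (EuclideanSpace ℝ (Fin k))) := V.closed_of_finiteDimensional
  have hmem : h - g 1 ∈ V := by
    have h1 : h - g 1 ∈ closure (V : Set (EuclideanSpace ℝ (Fin k))) := by
      rw [Metric.mem_closure_iff]
      intro δ hδ
      obtain ⟨m, hm⟩ := exists_nat_gt (ρ / δ)
      have hm1 : (0 : ℝ) < ((m + 1 : ℕ) : ℝ) := by positivity
      refine ⟨(((m + 1 : ℕ) : ℝ))⁻¹ • (g (m + 1) - ((m + 1 : ℕ) : ℝ) • g 1),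
        V.smul_mem _ (key m), ?_⟩
      rw [dist_eq_norm]
      have h2 : h - g 1 - (((m + 1 : ℕ) : ℝ))⁻¹ • (g (m + 1) - ((m + 1 : ℕ) : ℝ) • g 1)
          = (((m + 1 : ℕ) : ℝ))⁻¹ • (((m + 1 : ℕ) : ℝ) • h - g (m + 1)) := by
        rw [smul_sub, smul_sub, smul_smul, smul_smul, inv_mul_cancel₀ hm1.ne', one_smul, one_smul]
        abel
      rw [h2, norm_smul, norm_inv, Real.norm_eq_abs, abs_of_pos hm1, inv_mul_lt_iff₀ hm1]
      have h3 := hgm (m + 1)
      have h4 : ρ < δ * m := by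
        rw [div_lt_iff₀ hδ] at hm
        linarith
      push_cast at h3 ⊢
      nlinarith
    rwa [hclosed.closure_eq] at h1
  have h8 := G.add_mem (linPart_le G hmem) (hgG 1)
  rwa [sub_add_cancel] at h8

end Pool.Agent.Helper31.Toric
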