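import Pool.Agent.Helper31.Toric.Farkas

/-!
# Linear programming duality with a basic solution
-/

open Finset

namespace Pool.Agent.Helper31.Toric

/-- A non-negative combination of minimal support uses linearly independent vectors. -/
theorem exists_basic {r d : ℕ} (w : Fin r → Fin d → ℝ) (c : Fin r → ℝ) (hc : ∀ i, 0 ≤ c i)
    (x : Fin d → ℝ) (ε : ℝ)
    (h : ∃ a : Fin r → ℝ, (∀ i, 0 ≤ a i) ∧ (∀ j, x j = ∑ i, a i * w i j) ∧ ∑ i, a i * c i < ε) :
    ∃ (S : Finset (Fin r)) (a : Fin r → ℝ), (∀ i ∈ S, 0 < a i) ∧ (∀ i, i ∉ S → a i = 0) ∧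
      (∀ j, x j = ∑ i, a i * w i j) ∧ ∑ i, a i * c i < ε ∧
      LinearIndependent ℝ (fun i : S => w i) := by
  classical
  -- minimal support
  have hex : ∃ n : ℕ, ∃ a : Fin r → ℝ, ((∀ i, 0 ≤ a i) ∧ (∀ j, x j = ∑ i, a i * w i j) ∧
      ∑ i, a i * c i < ε) ∧ (univ.filter fun i => a i ≠ 0).card = n := by
    obtain ⟨a, ha⟩ := h
    exact ⟨_, a, ha, rfl⟩
  obtain ⟨a, ⟨ha0, hax, hac⟩, hcard⟩ := Nat.find_spec hex
  set S : Finset (Fin r) := univ.filter fun i => a i ≠ 0 with hS
  have memS : ∀ i, i ∈ S ↔ a i ≠ 0 := fun i => by rw [hS, Finset.mem_filter]; simp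
  refine ⟨S, a, fun i hi => lt_of_le_of_ne (ha0 i) (Ne.symm ((memS i).mp hi)), fun i hi => ?_,
    hax, hac, ?_⟩
  · by_contra h1
    exact hi ((memS i).mpr h1)
  by_contra hdep
  rw [Fintype.not_linearIndependent_iff] at hdep
  obtain ⟨g0, hg0, i0, hi0⟩ := hdep
  -- extend by zero
  set g1 : Fin r → ℝ := fun i => if hi : i ∈ S then g0 ⟨i, hi⟩ else 0 with hg1
  have hg1S : ∀ i, i ∉ S → g1 i = 0 := fun i hi => by simp only [hg1, dif_neg hi]
  have hg1i0 : g1 i0.1 ≠ 0 := by
    simp only [hg1, dif_pos i0.2]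
    exact hi0
  have hsum : ∀ f : Fin r → ℝ, ∑ i, g1 i * f i = ∑ i : S, g0 i * f i := by
    intro f
    rw [← Finset.sum_subset (Finset.subset_univ S)
      (fun i _ hi => by rw [hg1S i hi, zero_mul]), ← Finset.sum_coe_sort S]
    refine Finset.sum_congr rfl fun i _ => ?_
    simp only [hg1, dif_pos i.2]
  have hg1w : ∀ j, ∑ i, g1 i * w i j = 0 := by
    intro j
    rw [hsum]
    have := congrFun hg0 j
    simpa [Finset.sum_apply] using this
  -- choose the sign
  obtain ⟨g, hgS, hgw, hgc, i1, hi1⟩ : ∃ g : Fin r → ℝ, (∀ i, i ∉ S → g i = 0) ∧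
      (∀ j, ∑ i, g i * w i j = 0) ∧ 0 ≤ ∑ i, g i * c i ∧ ∃ i, 0 < g i := by
    have hneg : (∀ i, i ∉ S → -g1 i = 0) ∧ (∀ j, ∑ i, -g1 i * w i j = 0) := by
      refine ⟨fun i hi => by rw [hg1S i hi, neg_zero], fun j => ?_⟩
      have := hg1w j
      simp only [neg_mul, Finset.sum_neg_distrib, this, neg_zero]
    have hnegc : ∑ i, -g1 i * c i = -∑ i, g1 i * c i := by
      simp only [neg_mul, Finset.sum_neg_distrib]
    rcases lt_trichotomy (∑ i, g1 i * c i) 0 with h1 | h1 | h1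
    · refine ⟨fun i => -g1 i, hneg.1, hneg.2, by rw [hnegc]; linarith, ?_⟩
      by_contra h2
      push Not at h2
      have : 0 ≤ ∑ i, g1 i * c i :=
        Finset.sum_nonneg fun i _ => mul_nonneg (by have := h2 i; linarith) (hc i)
      linarith
    · rcases lt_or_gt_of_ne hg1i0 with h2 | h2
      · exact ⟨fun i => -g1 i, hneg.1, hneg.2, by rw [hnegc, h1, neg_zero], i0.1, by linarith⟩
      · exact ⟨g1, hg1S, hg1w, h1.ge, i0.1, h2⟩
    · refine ⟨g1, hg1S, hg1w, h1.le, ?_⟩
      by_contra h2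
      push Not at h2
      have : ∑ i, g1 i * c i ≤ 0 :=
        Finset.sum_nonpos fun i _ => mul_nonpos_of_nonpos_of_nonneg (h2 i) (hc i)
      linarith
  -- the step length
  obtain ⟨i2, hi2, hmin⟩ := Finset.exists_min_image (univ.filter fun i => 0 < g i)
    (fun i => a i / g i) ⟨i1, by simp [hi1]⟩
  have hg2 : 0 < g i2 := by simpa using hi2
  set θ : ℝ := a i2 / g i2 with hθ
  have hθ0 : 0 ≤ θ := div_nonneg (ha0 i2) hg2.le
  have hi2S : i2 ∈ S := by
    by_contra h1
    rw [hgS i2 h1] at hg2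
    exact lt_irrefl _ hg2
  have hlt : (univ.filter fun i => a i - θ * g i ≠ 0).card < Nat.find hex := by
    rw [← hcard]
    apply Finset.card_lt_card
    rw [Finset.ssubset_iff_subset_ne]
    refine ⟨fun i hi => ?_, fun h1 => ?_⟩
    · rw [Finset.mem_filter] at hi
      by_contra h1
      apply hi.2
      have h2 : a i = 0 := by
        by_contra h3
        exact h1 ((memS i).mpr h3)
      rw [h2, hgS i h1]
      ring
    · have h2 : i2 ∈ univ.filter fun i => a i - θ * g i ≠ 0 := by rw [h1]; exact hi2S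
      rw [Finset.mem_filter] at h2
      apply h2.2
      rw [hθ, div_mul_cancel₀ _ hg2.ne']
      ring
  refine Nat.find_min hex hlt ⟨fun i => a i - θ * g i, ⟨fun i => ?_, fun j => ?_, ?_⟩, rfl⟩
  · rcases le_or_gt (g i) 0 with h1 | h1
    · have := mul_nonneg hθ0 (neg_nonneg.mpr h1)
      have := ha0 i
      linarith
    · have h2 := hmin i (by simp [h1])
      have h3 : θ * g i ≤ a i := by
        calc θ * g i ≤ a i / g i * g i := mul_le_mul_of_nonneg_right h2 h1.le
          _ = a i := div_mul_cancel₀ _ h1.ne'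
      linarith
  · have h1 : ∑ i, (a i - θ * g i) * w i j = ∑ i, a i * w i j - θ * ∑ i, g i * w i j := by
      rw [Finset.mul_sum, ← Finset.sum_sub_distrib]
      exact Finset.sum_congr rfl fun i _ => by ring
    rw [h1, hgw j, mul_zero, sub_zero]
    exact hax j
  · have h1 : ∑ i, (a i - θ * g i) * c i = ∑ i, a i * c i - θ * ∑ i, g i * c i := by
      rw [Finset.mul_sum, ← Finset.sum_sub_distrib]
      exact Finset.sum_congr rfl fun i _ => by ring
    rw [h1]
    have := mul_nonneg hθ0 hgc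
    linarith

/-- Duality: if no `u` in the polyhedron `⟨u, w i⟩ ≤ c i` has `⟨u, x⟩ ≥ ε`, where `x` is in the
cone of the `w i` and `c ≥ 0`, then some basic combination is too cheap. -/
theorem exists_cheap {r d : ℕ} (w : Fin r → Fin d → ℝ) (c : Fin r → ℝ) (hc : ∀ i, 0 ≤ c i)
    (x : Fin d → ℝ) (ε : ℝ)
    (h : ¬ ∃ u : Fin d → ℝ, (∀ i, ∑ j, w i j * u j ≤ c i) ∧ ε ≤ ∑ j, x j * u j) :
    ∃ a : Fin r → ℝ, (∀ i, 0 ≤ a i) ∧ (∀ j, x j = ∑ i, a i * w i j) ∧ ∑ i, a i * c i < ε := by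
  rcases farkas d (Fin r ⊕ Unit) (fun i => Sum.elim w (fun _ j => - x j) i)
    (fun i => Sum.elim c (fun _ => - ε) i) with ⟨u, hu⟩ | ⟨l, hl0, hl1, hl2⟩
  · exfalso
    apply h
    refine ⟨u, fun i => by simpa using hu (Sum.inl i), ?_⟩
    have h1 := hu (Sum.inr ())
    simp only [Sum.elim_inr, neg_mul, Finset.sum_neg_distrib] at h1
    linarith
  · have hl1' : ∀ j, ∑ i, l (Sum.inl i) * w i j = l (Sum.inr ()) * x j := by
      intro j
      have h1 := hl1 j
      rw [Fintype.sum_sum_type] at h1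
      simp only [Sum.elim_inl, Sum.elim_inr, Finset.univ_unique, Finset.sum_singleton] at h1
      have h2 : (default : Unit) = () := rfl
      rw [h2] at h1
      linarith
    rw [Fintype.sum_sum_type] at hl2
    simp only [Sum.elim_inl, Sum.elim_inr, Finset.univ_unique, Finset.sum_singleton] at hl2
    have h2 : (default : Unit) = () := rfl
    rw [h2] at hl2
    set μ := l (Sum.inr ()) with hμ
    have hμ0 : 0 ≤ μ := hl0 _
    have hnn : 0 ≤ ∑ i, l (Sum.inl i) * c i :=
      Finset.sum_nonneg fun i _ => mul_nonneg (hl0 _) (hc i)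
    have hμ1 : 0 < μ := by
      rcases hμ0.lt_or_eq with h3 | h3
      · exact h3
      · rw [← h3] at hl2
        linarith
    refine ⟨fun i => l (Sum.inl i) / μ, fun i => div_nonneg (hl0 _) hμ0, fun j => ?_, ?_⟩
    · have h3 : ∑ i, l (Sum.inl i) / μ * w i j = (∑ i, l (Sum.inl i) * w i j) / μ := by
        rw [Finset.sum_div]
        exact Finset.sum_congr rfl fun i _ => by ring
      rw [h3, hl1' j, mul_div_cancel_left₀ _ hμ1.ne']
    · have h3 : ∑ i, l (Sum.inl i) / μ * c i = (∑ i, l (Sum.inl i) * c i) / μ := by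
        rw [Finset.sum_div]
        exact Finset.sum_congr rfl fun i _ => by ring
      rw [h3, div_lt_iff₀ hμ1]
      linarith

end Pool.Agent.Helper31.Toric
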